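import Pool.Agent.H85.TU.Targets2
import Pool.Agent.H60.TU.SNF

/-!
Every invariant Borel class is a core class (MP_5607ba_lc).
-/

set_option autoImplicit false

open Set Pool.Agent.H85.TU

namespace Pool.Agent.H1.TU

open Pool.Agent.H60.TU (red_iso red_meas)

/-- the models of the normal form and the models of the sentence -/
theorem nf_equiv (hTRU : T_TRU) (hEXP : T_EXP) (hEXM : T_EXM) (C : Type) [MeasurableSpace C]
    (φ : F3 C) (θ : ℕ → F3 C) (hφ : NoCount φ) (hmem : φ ∈ subs φ) (hθ : range θ = subs φ) :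
    (∀ y ∈ ModelsAll (nf φ θ), red3 y ∈ ModelsAll φ) ∧
    (CountablyMany (ModelsAll (nf φ θ)) ↔ CountablyMany (ModelsAll φ)) ∧
    (PerfectlyMany (ModelsAll (nf φ θ)) ↔ PerfectlyMany (ModelsAll φ)) := by
  have h1 : ∀ y ∈ ModelsAll (nf φ θ), red3 y ∈ ModelsAll φ := by
    intro y hy v
    have h2 := (hTRU C φ θ hφ hθ y hy).1 φ hmem v
    exact h2.1 (hy v 0)
  have h2 : ∀ y ∈ ModelsAll (nf φ θ), exp3 (subs φ) (red3 y) = y := fun y hy =>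
    (hTRU C φ θ hφ hθ y hy).2
  have h3 : ∀ x ∈ ModelsAll φ, exp3 (subs φ) x ∈ ModelsAll (nf φ θ) :=
    hEXP C φ θ hφ hθ
  obtain ⟨h4, h5⟩ := hEXM C (subs φ)
  refine ⟨h1, ⟨?_, ?_⟩, ⟨?_, ?_⟩⟩
  · rintro ⟨S, hS, hS2⟩
    refine ⟨red3 '' S, hS.image _, fun x hx => ?_⟩
    obtain ⟨y, hy, hxy⟩ := hS2 _ (h3 x hx)
    exact ⟨red3 y, ⟨y, hy, rfl⟩, red_iso hxy⟩
  · rintro ⟨S, hS, hS2⟩
    refine ⟨exp3 (subs φ) '' S, hS.image _, fun y hy => ?_⟩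
    obtain ⟨z, hz, hyz⟩ := hS2 _ (h1 y hy)
    refine ⟨exp3 (subs φ) z, ⟨z, hz, rfl⟩, ?_⟩
    have h6 := h5 _ _ hyz
    rwa [h2 y hy] at h6
  · rintro ⟨F, hF, hF2, hF3⟩
    refine ⟨fun u => red3 (F u), (red_meas _).comp hF, fun u => h1 _ (hF2 u), ?_⟩
    intro u v huv h
    have h6 := h5 _ _ h
    rw [h2 _ (hF2 u), h2 _ (hF2 v)] at h6
    exact hF3 u v huv h6
  · rintro ⟨F, hF, hF2, hF3⟩
    refine ⟨fun u => exp3 (subs φ) (F u), h4.comp hF, fun u => h3 _ (hF2 u), ?_⟩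
    intro u v huv h
    exact hF3 u v huv (red_iso h)

theorem pf_COR (hL2S : T_L2S) (hN3P : T_N3P) (hSUB : T_SUB) (hTRU : T_TRU) (hEXP : T_EXP)
    (hEXM : T_EXM) (hNFK : T_NFK) : T_COR := by
  intro ι _ ar D _ _ _ X hX hinv
  obtain ⟨E, mE, sE, X', hX'm, hX'i, hC1, hP1⟩ := hL2S ι ar D X hX hinv
  obtain ⟨ψ, hNC, hlen, hC2, hP2⟩ := hN3P E X' hX'm hX'i
  obtain ⟨hc, hmem, -⟩ := hSUB ((ℕ × E) × (ℕ → Bool)) ψ
  obtain ⟨θ, hθ⟩ := hc.exists_eq_range ⟨ψ, hmem⟩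
  haveI : Countable (subs ψ) := hc.to_subtype
  obtain ⟨α, β, hα, hβ, hKK⟩ := hNFK ((ℕ × E) × (ℕ → Bool)) ψ θ hNC
  obtain ⟨h1, h2, h3⟩ := nf_equiv hTRU hEXP hEXM ((ℕ × E) × (ℕ → Bool)) ψ θ hNC hmem hθ.symm
  refine ⟨LS (subs ψ), inferInstance, inferInstance, α, β, fun c => c.1.1.1, hα, hβ,
    measurable_fst.comp (measurable_fst.comp measurable_fst), ?_, ?_, ?_⟩
  · intro y hy n
    rw [hKK] at hy
    exact hlen (red3 y) (h1 y hy) n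
  · rw [hKK]
    exact h2.trans (hC2.trans hC1)
  · rw [hKK]
    exact h3.trans (hP2.trans hP1)

end Pool.Agent.H1.TU
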