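import Pool.Agent.H85.TU.Targets

/-!
The free labels of the second coding case are Borel in the matrix (MP_5607ba_lc).
-/

set_option autoImplicit false

open Set Pool.Agent.H85.TU

namespace Pool.Agent.H1.TU

theorem meas_AD (a b : ℕ) : MeasurableSet {d : ℕ → Bool | AD d a b} := by
  unfold AD
  split_ifs with h1 h2 h3
  · exact MeasurableSet.const _
  · exact MeasurableSet.const _
  · have h4 : Measurable fun d : ℕ → Bool => d (b - 6) := measurable_pi_apply (b - 6)
    exact h4 (measurableSet_singleton true)
  · exact MeasurableSet.const _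

theorem pf_MFR : T_MFR := by
  intro ι ar D _ x T i c0 c1 j v
  by_cases h : j = i
  · subst h
    have h0 : (fun d : ℕ → Bool => fr1 T j c0 c1 (AD d) j v) = fun d : ℕ → Bool =>
        @ite (D j) (∃ a b, AD d a b ∧ v = tup (pt1 (ar j)) (fun _ => gP T) (eP T a) (fP T b))
          (Classical.propDecidable _) c1 c0 := by
      funext d
      unfold fr1
      classical
      rw [Function.update_self]
    rw [h0]
    have hS : MeasurableSet {d : ℕ → Bool | ∃ a b, AD d a b ∧
        v = tup (pt1 (ar j)) (fun _ => gP T) (eP T a) (fP T b)} := by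
      have h1 : {d : ℕ → Bool | ∃ a b, AD d a b ∧
          v = tup (pt1 (ar j)) (fun _ => gP T) (eP T a) (fP T b)} =
          ⋃ a, ⋃ b, ({d : ℕ → Bool | AD d a b} ∩
            {_d : ℕ → Bool | v = tup (pt1 (ar j)) (fun _ => gP T) (eP T a) (fP T b)}) := by
        ext d
        simp only [mem_ofPred_eq, mem_iUnion, mem_inter_iff]
      rw [h1]
      exact MeasurableSet.iUnion fun a => MeasurableSet.iUnion fun b =>
        (meas_AD a b).inter (MeasurableSet.const _)
    exact Measurable.ite hS measurable_const measurable_const
  · have h0 : (fun d : ℕ → Bool => fr1 T i c0 c1 (AD d) j v) = fun _ => x j fun _ => 0 := by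
      funext d
      unfold fr1
      classical
      rw [Function.update_of_ne h]
    rw [h0]
    exact measurable_const

end Pool.Agent.H1.TU
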