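import Pool.Agent.H85.TU.Targets2

/-!
The classes of sentences with a given prefix are invariant under isomorphisms (MP_5607ba_lc).
-/

set_option autoImplicit false

open Set Pool.Agent.H85.TU

namespace Pool.Agent.H1.TU

theorem pre_map (g : ℕ ≃ ℕ) : ∀ (π : List Bool) (R R' : List ℕ → Prop),
    (∀ l : List ℕ, l.length = π.length → (R l ↔ R' (l.map g))) → Pre π R → Pre π R'
  | [], R, R', h, hR => (h [] rfl).1 hR
  | true :: π, R, R', h, hR => by
    intro a'
    refine pre_map g π (fun l => R (g.symm a' :: l)) (fun l => R' (a' :: l)) ?_ (hR (g.symm a'))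
    intro l hl
    have h1 := h (g.symm a' :: l) (by simp [hl])
    rw [List.map_cons, Equiv.apply_symm_apply] at h1
    exact h1
  | false :: π, R, R', h, hR => by
    obtain ⟨a, ha⟩ := hR
    refine ⟨g a, pre_map g π (fun l => R (a :: l)) (fun l => R' (g a :: l)) ?_ ha⟩
    intro l hl
    exact h (a :: l) (by simp [hl])

theorem tp_iso {ι : Type} {ar : ι → ℕ} {D : ι → Type} {x x' : Str ar D ℕ} (g : ℕ ≃ ℕ)
    (hg : ∀ i v, x' i (g ∘ v) = x i v) {n : ℕ} (v : Fin n → ℕ) : tp x' (g ∘ v) = tp x v := by
  refine Prod.ext ?_ ?_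
  · funext i w
    exact hg i (v ∘ w)
  · funext i j
    show decide (g (v i) = g (v j)) = decide (v i = v j)
    rw [decide_eq_decide]
    exact g.injective.eq_iff

theorem pf_SIS : T_SIS := by
  intro ι ar D π B x hx x' ⟨g, hg⟩
  refine pre_map g π _ _ ?_ hx
  intro l hl
  have h1 : (fun i : Fin π.length => (l.map g).getD i 0) =
      g ∘ (fun i : Fin π.length => l.getD i 0) := by
    funext i
    have hi : i.1 < l.length := by rw [hl]; exact i.2
    show (l.map g).getD i 0 = g (l.getD i 0)
    rw [List.getD_eq_getElem _ _ hi, List.getD_eq_getElem _ _ (by rw [List.length_map]; exact hi),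
      List.getElem_map]
  rw [h1, tp_iso g hg]

end Pool.Agent.H1.TU
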